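import Pool.Agent.Helper83.MC2
import Pool.Agent.Helper83.MC5
import Pool.Agent.Helper83.MC6

set_option autoImplicit false

namespace Pool.Agent.Results.MP_45c792_gt.TychonoffExample

/-- `C` is an open cover of the space `X`. -/
def IsOpenCover {X : Type} [TopologicalSpace X] (C : Set (Set X)) : Prop :=
  (∀ U ∈ C, IsOpen U) ∧ ∀ x : X, ∃ U ∈ C, x ∈ U

/-- `R` is a refinement of `C`: a cover of `X`, by sets of any kind, each of whose members lies
in some member of `C`. -/
def IsRefinement {X : Type} (R C : Set (Set X)) : Prop :=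
  (∀ x : X, ∃ V ∈ R, x ∈ V) ∧ ∀ V ∈ R, ∃ U ∈ C, V ⊆ U

/-- Any two members of `C` lie together in one member of `C`. -/
def IsDirected {X : Type} (C : Set (Set X)) : Prop :=
  ∀ U₁ ∈ C, ∀ U₂ ∈ C, ∃ U₃ ∈ C, U₁ ∪ U₂ ⊆ U₃

/-- `R` is a cushioned refinement of `C`: a refinement together with a map `g` from `R` to `C`
for which the closure of the union of every subfamily `W` of `R` lies in the union of the
members `g V`, for `V` in `W`. -/
def IsCushionedRefinement {X : Type} [TopologicalSpace X] (R C : Set (Set X)) : Prop :=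
  IsRefinement R C ∧ ∃ g : R → C, ∀ W : Set R,
    closure (⋃ V ∈ W, (V : Set X)) ⊆ ⋃ V ∈ W, (g V : Set X)

/-- `X` is metacompact: every open cover has a refinement by open sets in which every point
lies in only finitely many members. -/
def IsMetacompact (X : Type) [TopologicalSpace X] : Prop :=
  ∀ C : Set (Set X), IsOpenCover C →
    ∃ R : Set (Set X), (∀ V ∈ R, IsOpen V) ∧ IsRefinement R C ∧
      ∀ x : X, {V : Set X | V ∈ R ∧ x ∈ V}.Finite

open Pool.Agent.Helper83.MC

theorem exists_om : ∃ (Ω : Type) (_ : LinearOrder Ω), Om Ω ∧ Nonempty Ω := by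
  let κ : Cardinal.{0} := Cardinal.aleph 1
  have hcard : Cardinal.mk κ.ord.ToType = κ := Cardinal.mk_ord_toType κ
  have hunc : Uncountable κ.ord.ToType := by
    rw [← Cardinal.aleph0_lt_mk_iff, hcard]
    exact Cardinal.aleph0_lt_aleph_one
  have hIio : ∀ a : κ.ord.ToType, (Set.Iio a).Countable := by
    intro a
    have h1 : Cardinal.mk (Set.Iio a) < κ := by simpa using Cardinal.mk_Iio_lt a
    rw [← Cardinal.le_aleph0_iff_set_countable]
    have h2 : κ = Order.succ Cardinal.aleph0 := by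
      simp only [κ]; rw [Cardinal.succ_aleph0]
    exact Order.lt_succ_iff.1 (h1.trans_eq h2)
  refine ⟨κ.ord.ToType, inferInstance, ⟨inferInstance, hIio, ?_⟩, ?_⟩
  · intro s hs
    by_contra hcon
    push Not at hcon
    have h2 : (Set.univ : Set κ.ord.ToType) ⊆ ⋃ a ∈ s, Set.Iic a := by
      intro b _
      obtain ⟨a, ha, hab⟩ := hcon b
      exact Set.mem_biUnion ha hab
    have h3 : (⋃ a ∈ s, Set.Iic a).Countable := by
      refine hs.biUnion fun a _ => ?_
      rw [← Set.Iio_insert]; exact (hIio a).insert a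
    exact Set.not_countable_univ (h3.mono h2)
  · exact (inferInstance : Nonempty κ.ord.ToType)

/-- There is a Tychonoff, first countable space with a base of clopen sets in which every
directed open cover has a cushioned refinement, but which is not metacompact. -/
theorem result :
    ∃ (X : Type) (_ : TopologicalSpace X), T35Space X ∧ FirstCountableTopology X ∧
      (∀ (x : X) (U : Set X), IsOpen U → x ∈ U → ∃ V : Set X, IsClopen V ∧ x ∈ V ∧ V ⊆ U) ∧
      (∀ C : Set (Set X), IsOpenCover C → IsDirected C →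
        ∃ R : Set (Set X), IsCushionedRefinement R C) ∧
      ¬ IsMetacompact X := by
  obtain ⟨Ω, hlin, hOm, hne⟩ := exists_om
  obtain ⟨a⟩ := hne
  obtain ⟨x₀, hx₀⟩ := exists_point a
  have hne' : Nonempty Ω := ⟨a⟩
  refine ⟨X Ω, inferInstance, ?_, firstCountableX, ?_, ?_, ?_⟩
  · have h1 : T2Space (X Ω) := t2X
    have h2 : CompletelyRegularSpace (X Ω) := completelyRegularX
    exact {}
  · intro x U hU hx
    obtain ⟨n, β, h1, h2⟩ := (isOpen_iff' U).1 hU x hx
    exact ⟨Nb x n β, isClopen_Nb x n β, self_mem_Nb h1, h2⟩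
  · rintro C ⟨hCo, hCc⟩ hCd
    have hCc' : ⋃₀ C = Set.univ := Set.eq_univ_of_forall fun x => by
      obtain ⟨U, hU, hx⟩ := hCc x
      exact ⟨U, hU, hx⟩
    obtain ⟨R, hR, f, hf, hW⟩ := cushioned C hCo hCc' (fun U₁ h₁ U₂ h₂ => by
      obtain ⟨U₃, h₃, h⟩ := hCd U₁ h₁ U₂ h₂
      exact ⟨U₃, h₃, Set.subset_union_left.trans h, Set.subset_union_right.trans h⟩) ⟨x₀⟩
    refine ⟨R, ⟨fun x => ?_, fun V hV => ⟨f V, hf V hV, ?_⟩⟩, fun V => ⟨f V.1, hf V.1 V.2⟩, ?_⟩
    · have : x ∈ ⋃₀ R := by rw [hR]; trivial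
      exact this
    · have h1 := hW {V} (Set.singleton_subset_iff.2 hV)
      rw [Set.sUnion_singleton, Set.image_singleton, Set.sUnion_singleton] at h1
      exact subset_closure.trans h1
    · intro W
      have h1 := hW (Subtype.val '' W) (by rintro _ ⟨V, _, rfl⟩; exact V.2)
      have h2 : ⋃₀ (Subtype.val '' W) = ⋃ V ∈ W, (V : Set (X Ω)) := by
        rw [Set.sUnion_image]
      rw [h2] at h1
      refine h1.trans ?_
      rintro x ⟨_, ⟨_, ⟨V, hV, rfl⟩, rfl⟩, hx⟩
      exact Set.mem_biUnion hV hx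
  · intro H
    obtain ⟨R, h1, ⟨h2, h3⟩, h4⟩ := H (Set.range Gcov)
      ⟨by rintro _ ⟨a, rfl⟩; exact isOpen_Gcov a,
        fun x => ⟨Gcov (x.1 0), ⟨x.1 0, rfl⟩, le_rfl⟩⟩
    refine not_metacompact R h1 (Set.eq_univ_of_forall fun x => by
      obtain ⟨V, hV, hx⟩ := h2 x
      exact ⟨V, hV, hx⟩) ?_ h4
    intro V hV
    obtain ⟨U, ⟨b, rfl⟩, hU⟩ := h3 V hV
    exact ⟨b, hU⟩

end Pool.Agent.Results.MP_45c792_gt.TychonoffExample
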